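import Mathlib
import Pool.Agent.X116.Eul
import Pool.Agent.X116.Interl

/-!
# Interlacing of specialised multivariate Eulerian polynomials

For all positive weights `λ_1, λ_2, …` the zeros of `e_{n-1}` and `e_n` strictly interlace.
-/

open Polynomial Finset

namespace Pool.Agent.Results.MP_9d2565_co.AllWeights

/-- `e_n(t) = E_n(λ_1 t, …, λ_{n-1} t) = ∑_{π ∈ S_n} ∏_{k ∈ DES(π)} λ_k t` with `n = m + 1`.  The
letters and positions of `S_n` are indexed by `Fin (m + 1)`; the position `k ∈ {1, …, n - 1}` of the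
problem is `k = j + 1` with `j : Fin m`, and it is a descent when the letter at the position
`j.castSucc` is larger than the letter at the position `j.succ`. -/
noncomputable def e (lam : ℕ → ℝ) (m : ℕ) : ℝ[X] :=
  ∑ π : Equiv.Perm (Fin (m + 1)), ∏ j : Fin m,
    if π j.succ < π j.castSucc then C (lam (j + 1)) * X else 1

/-- `f` has `m` zeros `F_0 > F_1 > ⋯`, `g` has `m + 1` zeros `G_0 > G_1 > ⋯`, all of them real and
simple, and `0 > G_0 > F_0 > G_1 > F_1 > ⋯ > F_{m-1} > G_m`. -/
def StrictlyInterlace (m : ℕ) (f g : ℝ[X]) : Prop :=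
  ∃ (F : Fin m → ℝ) (G : Fin (m + 1) → ℝ) (a b : ℝ), 0 < a ∧ 0 < b ∧
    f = C a * ∏ i, (X - C (F i)) ∧ g = C b * ∏ i, (X - C (G i)) ∧
    StrictAnti F ∧ StrictAnti G ∧ (∀ i, G i < 0) ∧
    (∀ i : Fin m, F i < G i.castSucc) ∧ (∀ i : Fin m, G i.succ < F i)

/-- insertion of the last letter `i` -/
def ins {m : ℕ} (i : Fin (m + 2)) (σ : Equiv.Perm (Fin (m + 1))) : Equiv.Perm (Fin (m + 2)) :=
  (finSuccEquiv' (Fin.last (m + 1))).trans
    ((Equiv.optionCongr σ).trans (finSuccEquiv' i).symm)

lemma ins_last {m : ℕ} (i : Fin (m + 2)) (σ : Equiv.Perm (Fin (m + 1))) :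
    ins i σ (Fin.last (m + 1)) = i := by
  simp [ins]

lemma ins_castSucc {m : ℕ} (i : Fin (m + 2)) (σ : Equiv.Perm (Fin (m + 1))) (k : Fin (m + 1)) :
    ins i σ k.castSucc = i.succAbove (σ k) := by
  have h : finSuccEquiv' (Fin.last (m + 1)) k.castSucc = some k := by
    rw [← Fin.succAbove_last, finSuccEquiv'_succAbove]
  simp [ins, h]

lemma ins_bij (m : ℕ) : Function.Bijective
    (fun p : Fin (m + 2) × Equiv.Perm (Fin (m + 1)) => ins p.1 p.2) := by
  rw [Fintype.bijective_iff_injective_and_card]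
  constructor
  · rintro ⟨i, σ⟩ ⟨i', σ'⟩ h
    simp only at h
    have h1 : i = i' := by
      rw [← ins_last i σ, h, ins_last]
    subst h1
    have h2 : σ = σ' := by
      ext k
      have h3 := ins_castSucc i σ k
      rw [h, ins_castSucc] at h3
      rw [Fin.succAbove_right_injective h3]
    rw [h2]
  · rw [Fintype.card_prod, Fintype.card_perm, Fintype.card_perm, Fintype.card_fin,
      Fintype.card_fin, Nat.factorial_succ (m + 1)]

/-- the weight of a permutation -/
noncomputable def wgt (lam : ℕ → ℝ) {m : ℕ} (π : Equiv.Perm (Fin (m + 1))) : ℝ[X] :=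
  ∏ j : Fin m, if π j.succ < π j.castSucc then C (lam (j + 1)) * X else 1

lemma wgt_ins (lam : ℕ → ℝ) {m : ℕ} (i : Fin (m + 2)) (σ : Equiv.Perm (Fin (m + 1))) :
    wgt lam (ins i σ) = wgt lam σ *
      (if (σ (Fin.last m)).castSucc < i then 1 else C (lam (m + 1)) * X) := by
  unfold wgt
  rw [Fin.prod_univ_castSucc]
  congr 1
  · refine Finset.prod_congr rfl fun j _ => ?_
    have e1 : (j.castSucc : Fin (m + 1)).succ = (j.succ : Fin (m + 1)).castSucc :=
      Fin.succ_castSucc j
    rw [e1, ins_castSucc, ins_castSucc]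
    simp only [Fin.succAbove_lt_succAbove_iff, Fin.val_castSucc]
  · have e1 : (Fin.last m).succ = Fin.last (m + 1) := Fin.succ_last m
    rw [e1, ins_last, ins_castSucc]
    have h : i < i.succAbove (σ (Fin.last m)) ↔ ¬ (σ (Fin.last m)).castSucc < i := by
      rw [Fin.lt_succAbove_iff_le_castSucc, not_lt]
    by_cases h1 : (σ (Fin.last m)).castSucc < i
    · rw [if_neg (fun h2 => h.mp h2 h1), if_pos h1]
    · rw [if_pos (h.mpr h1), if_neg h1]
      simp

/-- the sum over permutations with a given last letter -/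
lemma aa_eq (lam : ℕ → ℝ) (m : ℕ) : ∀ i : Fin (m + 1), Pool.Agent.X116.Eul.aa lam m i
    = ∑ π : Equiv.Perm (Fin (m + 1)), if π (Fin.last m) = i then wgt lam π else 0 := by
  induction m with
  | zero =>
    intro i
    have h1 : Pool.Agent.X116.Eul.aa lam 0 i = 1 := rfl
    rw [h1]
    have h2 : ∀ π : Equiv.Perm (Fin 1), (if π (Fin.last 0) = i then wgt lam π else 0) = 1 := by
      intro π
      rw [if_pos (Subsingleton.elim _ _)]
      simp [wgt]
    simp only [h2]
    simp
  | succ m ih =>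
    intro i
    rw [← (Equiv.ofBijective _ (ins_bij m)).sum_comp, Fintype.sum_prod_type]
    simp only [Equiv.ofBijective_apply, ins_last]
    rw [Finset.sum_eq_single i]
    · simp only [if_true]
      rw [Pool.Agent.X116.Eul.aa_succ]
      simp only [wgt_ins]
      -- group by the last letter of `σ`
      have h1 : ∀ σ : Equiv.Perm (Fin (m + 1)), wgt lam σ *
          (if (σ (Fin.last m)).castSucc < i then 1 else C (lam (m + 1)) * X)
          = ∑ j : Fin (m + 1), if σ (Fin.last m) = j then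
            (wgt lam σ * (if j.castSucc < i then 1 else C (lam (m + 1)) * X)) else 0 := by
        intro σ
        rw [Finset.sum_ite_eq]
        simp
      rw [Finset.sum_congr rfl fun σ _ => h1 σ, Finset.sum_comm]
      refine Finset.sum_congr rfl fun j _ => ?_
      rw [ih j]
      by_cases hj : j.castSucc < i
      · simp [hj]
      · rw [if_neg hj, Finset.mul_sum]
        refine Finset.sum_congr rfl fun σ _ => ?_
        rw [if_neg hj]
        split_ifs
        · ring
        · ring
    · intro i' _ hi'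
      refine Finset.sum_eq_zero fun σ _ => ?_
      rw [if_neg hi']
    · intro h
      exact absurd (Finset.mem_univ i) h

lemma e_eq (lam : ℕ → ℝ) (m : ℕ) : e lam m = Pool.Agent.X116.Eul.ee lam m := by
  unfold Pool.Agent.X116.Eul.ee
  simp only [aa_eq]
  rw [Finset.sum_comm]
  unfold e
  refine Finset.sum_congr rfl fun π _ => ?_
  rw [Finset.sum_ite_eq]
  simp [wgt]

open Pool.Agent.X116.Eul in
/-- coefficients of the refined polynomials -/
lemma aa_coeff {lam : ℕ → ℝ} (hlam : ∀ k, 0 < lam k) (m : ℕ) :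
    (∀ i k, 0 ≤ (aa lam m i).coeff k) ∧ (∀ i, (aa lam m i).natDegree ≤ m) ∧
      0 < (ee lam m).coeff m ∧ 0 < (ee lam m).coeff 0 := by
  induction m with
  | zero =>
    have h1 : ∀ i, aa lam 0 i = 1 := fun i => rfl
    refine ⟨?_, ?_, ?_, ?_⟩
    · intro i k
      rw [h1, coeff_one]
      split_ifs <;> norm_num
    · intro i
      rw [h1, natDegree_one]
    · simp [ee, h1]
    · simp [ee, h1]
  | succ m ih =>
    obtain ⟨ih1, ih2, ih3, ih4⟩ := ih
    have hnn : ∀ i k, 0 ≤ (aa lam (m + 1) i).coeff k := by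
      intro i k
      rw [aa_succ, finsetSum_coeff]
      refine Finset.sum_nonneg fun j _ => ?_
      split_ifs
      · exact ih1 j k
      · rw [mul_assoc, coeff_C_mul]
        rcases k with _ | k
        · simp
        · rw [coeff_X_mul]
          exact mul_nonneg (hlam _).le (ih1 j k)
    have hdeg : ∀ i, (aa lam (m + 1) i).natDegree ≤ m + 1 := by
      intro i
      rw [aa_succ]
      refine natDegree_sum_le_of_forall_le _ _ fun j _ => ?_
      split_ifs
      · exact (ih2 j).trans (Nat.le_succ m)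
      · rw [mul_assoc]
        refine (natDegree_C_mul_le _ _).trans (natDegree_mul_le.trans ?_)
        have := ih2 j
        rw [natDegree_X]
        omega
    have h0 : aa lam (m + 1) 0 = C (lam (m + 1)) * X * ee lam m := by
      rw [aa_succ]
      unfold ee
      rw [Finset.mul_sum]
      refine Finset.sum_congr rfl fun j _ => ?_
      rw [if_neg (Fin.not_lt_zero _)]
    refine ⟨hnn, hdeg, ?_, ?_⟩
    · have h1 : (aa lam (m + 1) 0).coeff (m + 1) ≤ (ee lam (m + 1)).coeff (m + 1) := by
        unfold ee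
        rw [finsetSum_coeff]
        exact Finset.single_le_sum (fun i _ => hnn i (m + 1)) (Finset.mem_univ 0)
      refine lt_of_lt_of_le ?_ h1
      rw [h0, mul_assoc, coeff_C_mul, coeff_X_mul]
      exact mul_pos (hlam _) ih3
    · have h1 : (aa lam (m + 1) (Fin.last (m + 1))).coeff 0 ≤ (ee lam (m + 1)).coeff 0 := by
        unfold ee
        rw [finsetSum_coeff]
        exact Finset.single_le_sum (fun i _ => hnn i 0) (Finset.mem_univ _)
      refine lt_of_lt_of_le ?_ h1
      rw [aa_last]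
      exact ih4

open Pool.Agent.X116.Eul in
lemma ee_deg {lam : ℕ → ℝ} (hlam : ∀ k, 0 < lam k) (m : ℕ) :
    (ee lam m).natDegree = m ∧ 0 < (ee lam m).leadingCoeff ∧ 0 < (ee lam m).eval 0 := by
  obtain ⟨h1, h2, h3, h4⟩ := aa_coeff hlam m
  have hd : (ee lam m).natDegree = m := by
    refine le_antisymm ?_ (le_natDegree_of_ne_zero h3.ne')
    unfold ee
    exact natDegree_sum_le_of_forall_le _ _ fun i _ => h2 i
  refine ⟨hd, ?_, ?_⟩
  · rw [leadingCoeff, hd]
    exact h3
  · rw [← coeff_zero_eq_eval_zero]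
    exact h4

open Pool.Agent.X116.Eul in
lemma ee_roots {lam : ℕ → ℝ} (hlam : ∀ k, 0 < lam k) (m : ℕ) :
    ∃ F : Fin m → ℝ, StrictAnti F ∧ (∀ i, F i < 0) ∧
      ee lam m = C (ee lam m).leadingCoeff * ∏ i, (X - C (F i)) := by
  induction m with
  | zero =>
    refine ⟨Fin.elim0, fun i => i.elim0, fun i => i.elim0, ?_⟩
    exact Pool.Agent.X116.factor_of_roots (ee_deg hlam 0).1 _ (fun i => i.elim0) (fun i => i.elim0)
  | succ m ih =>
    obtain ⟨F, hF1, hF2, hF3⟩ := ih
    obtain ⟨d1, d2, d3⟩ := ee_deg hlam m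
    obtain ⟨g1, g2, g3⟩ := ee_deg hlam (m + 1)
    obtain ⟨G, hG1, hG2, hG3, -, -⟩ := Pool.Agent.X116.interlace_step F hF1 hF2 d2 hF3 g1 g2 g3
      (fun i => W_pos hlam m (hF2 i))
    exact ⟨G, hG1, hG2, hG3⟩

/-- For all positive `λ_1, λ_2, …` and all `n ≥ 2` (here `n = m + 2`) the zeros of `e_{n-1}` and
`e_n` strictly interlace, and all of them are negative; in particular `e_{n-1} ⪯ e_n`. -/
theorem result : ∀ lam : ℕ → ℝ, (∀ k, 1 ≤ k → 0 < lam k) →
    ∀ m : ℕ, StrictlyInterlace m (e lam m) (e lam (m + 1)) := by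
  intro lam hlam m
  -- the value `lam 0` does not enter
  set lam' : ℕ → ℝ := fun k => if k = 0 then 1 else lam k with hlam'
  have hpos : ∀ k, 0 < lam' k := by
    intro k
    simp only [hlam']
    split_ifs with h
    · exact one_pos
    · exact hlam k (by omega)
  have he : ∀ m, e lam m = e lam' m := by
    intro m
    unfold e
    refine Finset.sum_congr rfl fun π _ => Finset.prod_congr rfl fun j _ => ?_
    have : lam' ((j : ℕ) + 1) = lam (j + 1) := by simp [hlam']
    rw [this]
  rw [he, he, e_eq, e_eq]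
  obtain ⟨F, hF1, hF2, hF3⟩ := ee_roots hpos m
  obtain ⟨d1, d2, d3⟩ := ee_deg hpos m
  obtain ⟨g1, g2, g3⟩ := ee_deg hpos (m + 1)
  obtain ⟨G, hG1, hG2, hG3, hG4, hG5⟩ := Pool.Agent.X116.interlace_step F hF1 hF2 d2 hF3 g1 g2 g3
    (fun i => Pool.Agent.X116.Eul.W_pos hpos m (hF2 i))
  exact ⟨F, G, _, _, d2, g2, hF3, hG3, hF1, hG1, hG2, hG4, hG5⟩

end Pool.Agent.Results.MP_9d2565_co.AllWeights
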